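import Pool.Agent.W707.HM.Stm

/-! # HM-CTF: continuity of the profile -/

set_option autoImplicit false

namespace Pool.Agent.W85.HM

open MeasureTheory Set Filter Topology
open Pool.Agent.W707.HM

theorem left (p : ℝ) (f : ℝ → ℝ) (hc : ConvexOn ℝ (Icc (-1 : ℝ) 1) f) (hq : QE p f) :
    ContinuousWithinAt f (Icc (-1 : ℝ) 1) (-1) := by
  have h1 : Tendsto (fun t : ℝ => f (-1) * (1 - p / 2 * (1 + t))) (𝓝[Icc (-1 : ℝ) 1] (-1))
      (𝓝 (f (-1))) := by
    have h : ContinuousAt (fun t : ℝ => f (-1) * (1 - p / 2 * (1 + t))) (-1) := by fun_prop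
    have h2 := h.continuousWithinAt (s := Icc (-1 : ℝ) 1)
    have h3 : (fun t : ℝ => f (-1) * (1 - p / 2 * (1 + t))) (-1) = f (-1) := by
      show f (-1) * (1 - p / 2 * (1 + -1)) = f (-1)
      ring
    unfold ContinuousWithinAt at h2
    rwa [h3] at h2
  have h2 : Tendsto (fun t : ℝ => (1 - t) / 2 * f (-1) + (1 + t) / 2 * f 1)
      (𝓝[Icc (-1 : ℝ) 1] (-1)) (𝓝 (f (-1))) := by
    have h : ContinuousAt (fun t : ℝ => (1 - t) / 2 * f (-1) + (1 + t) / 2 * f 1) (-1) := by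
      fun_prop
    have h2 := h.continuousWithinAt (s := Icc (-1 : ℝ) 1)
    have h3 : (fun t : ℝ => (1 - t) / 2 * f (-1) + (1 + t) / 2 * f 1) (-1) = f (-1) := by
      show (1 - -1) / 2 * f (-1) + (1 + -1) / 2 * f 1 = f (-1)
      ring
    unfold ContinuousWithinAt at h2
    rwa [h3] at h2
  refine tendsto_of_tendsto_of_tendsto_of_le_of_le' h1 h2 ?_ ?_
  · filter_upwards [self_mem_nhdsWithin] with t ht using hq t ht
  · filter_upwards [self_mem_nhdsWithin] with t ht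
    have h3 := hc.2 (left_mem_Icc.2 (by norm_num : (-1 : ℝ) ≤ 1))
      (right_mem_Icc.2 (by norm_num : (-1 : ℝ) ≤ 1))
      (by linarith [ht.2] : (0 : ℝ) ≤ (1 - t) / 2) (by linarith [ht.1] : (0 : ℝ) ≤ (1 + t) / 2)
      (by ring)
    simp only [smul_eq_mul] at h3
    have h4 : (1 - t) / 2 * -1 + (1 + t) / 2 * 1 = t := by ring
    rwa [h4] at h3

theorem neg_mem {t : ℝ} (ht : t ∈ Icc (-1 : ℝ) 1) : -t ∈ Icc (-1 : ℝ) 1 :=
  ⟨by linarith [ht.2], by linarith [ht.1]⟩

theorem main : S_CTF := by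
  intro p f hc hq hq'
  have hcm : ConvexOn ℝ (Icc (-1 : ℝ) 1) (mir f) := by
    refine ⟨convex_Icc _ _, fun x hx y hy a b ha hb hab => ?_⟩
    have h1 := hc.2 (neg_mem hx) (neg_mem hy) ha hb hab
    have h2 : a • -x + b • -y = -(a • x + b • y) := by
      simp only [smul_eq_mul]; ring
    rw [h2] at h1
    exact h1
  intro t ht
  rcases eq_or_lt_of_le ht.1 with h1 | h1
  · rw [← h1]; exact left p f hc hq
  rcases eq_or_lt_of_le ht.2 with h2 | h2
  · rw [h2]
    have h3 := left p (mir f) hcm hq'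
    have h4 : ContinuousWithinAt (fun x : ℝ => -x) (Icc (-1 : ℝ) 1) 1 :=
      continuous_neg.continuousWithinAt
    have h5 := ContinuousWithinAt.comp (g := mir f) (f := fun x : ℝ => -x)
      (t := Icc (-1 : ℝ) 1) (x := (1 : ℝ)) h3 h4 (fun x hx => neg_mem hx)
    refine h5.congr (fun x _ => ?_) ?_
    · show f x = f (- -x)
      rw [neg_neg]
    · show f 1 = f (- -1)
      rw [neg_neg]
  · have h3 : ConvexOn ℝ (Ioo (-1 : ℝ) 1) f := hc.subset Ioo_subset_Icc_self (convex_Ioo _ _)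
    have h4 := h3.continuousOn isOpen_Ioo
    exact (h4.continuousAt (Ioo_mem_nhds h1 h2)).continuousWithinAt

end Pool.Agent.W85.HM
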